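import Pool.Agent.helper7.DF.Spec
import Pool.Agent.helper99.FI.THS

set_option autoImplicit false

open Finset

namespace Pool.Agent.DFO

private lemma SML_prime (A : ℕ) : ∃ k₀ : ℕ, ∀ k : ℕ, k₀ ≤ k → ∀ u₁ u₂ : ℕ, u₁ ≤ u₂ → u₂ ≤ k →
    2 * ((k : ℝ) / Real.log k ^ A) < (u₂ : ℝ) - u₁ → ∃ p : ℕ, p.Prime ∧ u₁ < p ∧ p ≤ u₂ := by
  obtain ⟨x₀, h⟩ := Pool.Agent.FI.THS A 0
  refine ⟨x₀, fun k hk u₁ u₂ h12 h2k hlt => ?_⟩
  by_contra hno
  push Not at hno
  have key : ∀ u : ℕ, u ≤ 2 * k → |∑ l ∈ Ioc (0 : ℤ) u, Pool.Agent.FI.th l - (u : ℝ)| ≤ k / Real.log k ^ A := by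
    intro u hu
    have h1 := h k hk 1 le_rfl (by simp) 0 u (by simpa using isCoprime_one_right) hu
    simpa using h1
  have hsum : ∑ l ∈ Ioc (0 : ℤ) u₂, Pool.Agent.FI.th l = ∑ l ∈ Ioc (0 : ℤ) u₁, Pool.Agent.FI.th l := by
    symm
    apply Finset.sum_subset
    · intro l hl
      rw [Finset.mem_Ioc] at hl ⊢
      exact ⟨hl.1, by omega⟩
    · intro l hl hl'
      rw [Finset.mem_Ioc] at hl hl'
      unfold Pool.Agent.FI.th
      rw [if_neg]
      intro hp
      have h1 := hno l.toNat hp (by omega)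
      omega
  have k1 := key u₁ (by omega)
  have k2 := key u₂ (by omega)
  rw [hsum] at k2
  have k1' := abs_le.mp k1
  have k2' := abs_le.mp k2
  linarith [k1'.1, k1'.2, k2'.1, k2'.2]

private lemma SML_arith (n k m p : ℕ) (hm : 1 ≤ m) (ha : m * k ≤ 2 * n) (hb : n + k ≤ (m + 1) * k)
    (hp1 : n < m * p) (hp2 : (m + 1) * p ≤ n + k) : p ≤ k ∧ p ≤ n % p + k % p := by
  have hpk : p ≤ k := by
    by_contra hlt
    push Not at hlt
    have : (m + 1) * k < (m + 1) * p := Nat.mul_lt_mul_of_pos_left hlt (by omega)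
    omega
  have h2p : k < 2 * p := by
    by_contra hlt
    push Not at hlt
    have h1 : m * (2 * p) ≤ m * k := Nat.mul_le_mul_left m hlt
    have h2 : m * (2 * p) = 2 * (m * p) := by ring
    omega
  have hkp : k % p = k - p := by
    rw [Nat.mod_eq_sub_mod hpk, Nat.mod_eq_of_lt (by omega)]
  refine ⟨hpk, ?_⟩
  have hp0 : 0 < p := by omega
  have hnp : n / p ≤ m - 1 := by
    have : n / p < m := Nat.div_lt_of_lt_mul (by rw [mul_comm]; exact hp1)
    omega
  have hnm : p * (n / p) + n % p = n := Nat.div_add_mod n p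
  have h3 : p * (n / p) ≤ p * (m - 1) := Nat.mul_le_mul_left p hnp
  have h4 : p * (m - 1) + p = m * p := by
    obtain ⟨t, rfl⟩ : ∃ t, m = t + 1 := ⟨m - 1, by omega⟩
    simp only [Nat.add_sub_cancel]
    ring
  have h5 : (m + 1) * p = m * p + p := by ring
  rw [hkp]
  omega

private lemma SML_choice (n k : ℕ) (hk : 1 ≤ k) (hkn : k ≤ n) : ∃ m : ℕ, 1 ≤ m ∧ m ≤ n / k + 2 ∧ m * k ≤ 2 * n ∧ n + k ≤ (m + 1) * k ∧
    k + 2 * n ≤ 2 * (k * m) := by
  have hf : 1 ≤ n / k := (Nat.one_le_div_iff (by omega)).mpr hkn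
  have hr : n % k < k := Nat.mod_lt n (by omega)
  have hn : k * (n / k) + n % k = n := Nat.div_add_mod n k
  have hfk : k ≤ k * (n / k) := Nat.le_mul_of_pos_right k (by omega)
  by_cases h : 2 * (n % k) ≤ k
  · refine ⟨n / k + 1, by omega, by omega, ?_, ?_, ?_⟩
    · have : (n / k + 1) * k = k * (n / k) + k := by ring
      omega
    · have : (n / k + 1 + 1) * k = k * (n / k) + 2 * k := by ring
      omega
    · have : k * (n / k + 1) = k * (n / k) + k := by ring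
      omega
  · refine ⟨n / k + 2, by omega, by omega, ?_, ?_, ?_⟩
    · have : (n / k + 2) * k = k * (n / k) + 2 * k := by ring
      omega
    · have : (n / k + 2 + 1) * k = k * (n / k) + 3 * k := by ring
      omega
    · have : k * (n / k + 2) = k * (n / k) + 2 * k := by ring
      omega

/-- Small `n`: a prime in `(n/m, (n+k)/(m+1)]`. -/
theorem SML : SML_stmt := by
  intro C
  obtain ⟨k₁, hP⟩ := SML_prime (2 * C + 3)
  have hlog : Filter.Tendsto (fun k : ℕ => Real.log (k : ℝ)) Filter.atTop Filter.atTop :=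
    Real.tendsto_log_atTop.comp tendsto_natCast_atTop_atTop
  have h1 : ∀ᶠ k : ℕ in Filter.atTop, (6 : ℝ) ≤ Real.log (k : ℝ) := hlog.eventually_ge_atTop 6
  have h2 : ∀ᶠ k : ℕ in Filter.atTop, 64 * Real.log (k : ℝ) ^ (2 * C) ≤ (k : ℝ) := by
    have h3 : (fun x : ℝ => Real.log x ^ (2 * C)) =o[Filter.atTop] (fun x : ℝ => x) := by
      exact Real.isLittleO_pow_log_id_atTop (n := 2 * C)
    have h4 := (h3.def (show (0 : ℝ) < 1 / 64 by norm_num))
    have h5 := tendsto_natCast_atTop_atTop (R := ℝ) |>.eventually h4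
    filter_upwards [h5] with k hk
    simp only [Real.norm_eq_abs] at hk
    have := le_abs_self (Real.log (k : ℝ) ^ (2 * C))
    rw [abs_of_nonneg (Nat.cast_nonneg k : (0 : ℝ) ≤ k)] at hk
    linarith
  obtain ⟨k₂, hk₂⟩ := Filter.eventually_atTop.mp (h1.and h2)
  refine ⟨max (max k₁ k₂) 1, fun k hk n hkn hn => ?_⟩
  have hk1 : k₁ ≤ k := le_trans (le_trans (le_max_left _ _) (le_max_left _ _)) hk
  have hk2 : k₂ ≤ k := le_trans (le_trans (le_max_right _ _) (le_max_left _ _)) hk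
  have hkpos : 1 ≤ k := le_trans (le_max_right _ _) hk
  obtain ⟨hL, hbig⟩ := hk₂ k hk2
  obtain ⟨m, hm1, hmf, ha, hb, hc⟩ := SML_choice n k hkpos hkn
  set L := Real.log (k : ℝ) with hLdef
  have hkR : (0 : ℝ) < k := by exact_mod_cast hkpos
  have hL1 : 1 ≤ L ^ C := one_le_pow₀ (by linarith)
  -- bound of m + 1
  have hmR : (m : ℝ) + 1 ≤ 4 * L ^ C := by
    have h3 : ((n / k : ℕ) : ℝ) ≤ n / k := Nat.cast_div_le
    have h4 : (n : ℝ) / k ≤ L ^ C := by
      rw [div_le_iff₀ hkR]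
      linarith
    have h5 : (m : ℝ) ≤ ((n / k : ℕ) : ℝ) + 2 := by exact_mod_cast hmf
    linarith
  have hmpos : (0 : ℝ) < m := by exact_mod_cast hm1
  -- the interval
  have hu1 : ((n / m : ℕ) : ℝ) ≤ n / m := Nat.cast_div_le
  have hu2 : ((n : ℝ) + k) / (m + 1) - 1 < (((n + k) / (m + 1) : ℕ) : ℝ) := by
    have h3 := Nat.lt_div_mul_add (a := n + k) (b := m + 1) (by omega)
    have h4 : ((n : ℝ) + k) < (((n + k) / (m + 1) : ℕ) : ℝ) * (m + 1) + (m + 1) := by exact_mod_cast h3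
    have h5 : ((n : ℝ) + k) / (m + 1) < (((n + k) / (m + 1) : ℕ) : ℝ) + 1 := by
      rw [div_lt_iff₀ (by linarith)]
      linarith
    linarith
  have hcR : (k : ℝ) + 2 * n ≤ 2 * (k * m) := by exact_mod_cast hc
  have hlen : (k : ℝ) / (2 * (m + 1) ^ 2) ≤ ((n : ℝ) + k) / (m + 1) - n / m := by
    have h3 : ((n : ℝ) + k) / (m + 1) - n / m = (k * m - n) / (m * (m + 1)) := by
      field_simp
      ring
    rw [h3, div_le_div_iff₀ (by positivity) (by positivity)]
    have h4 : (k : ℝ) ≤ 2 * (k * m - n) := by linarith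
    have h5 : (k : ℝ) * (m * (m + 1)) ≤ k * (m + 1) ^ 2 := by
      apply mul_le_mul_of_nonneg_left _ hkR.le
      nlinarith
    have h6 : (k : ℝ) * (m + 1) ^ 2 ≤ 2 * (k * m - n) * (m + 1) ^ 2 := mul_le_mul_of_nonneg_right h4 (by positivity)
    linarith
  have hkL : 2 * ((k : ℝ) / L ^ (2 * C + 3)) ≤ k / (2 * (m + 1) ^ 2) - 1 := by
    have h3 : ((m : ℝ) + 1) ^ 2 ≤ 16 * L ^ (2 * C) := by
      have h4 : ((m : ℝ) + 1) ^ 2 ≤ (4 * L ^ C) ^ 2 := pow_le_pow_left₀ (by positivity) hmR 2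
      have h5 : (4 * L ^ C) ^ 2 = 16 * L ^ (2 * C) := by
        rw [mul_pow, ← pow_mul, mul_comm C 2]
        norm_num
      linarith
    have hLp : 0 < L ^ (2 * C) := pow_pos (by linarith) _
    have h4 : (k : ℝ) / (32 * L ^ (2 * C)) ≤ k / (2 * (m + 1) ^ 2) := by
      apply div_le_div_of_nonneg_left hkR.le (by positivity)
      linarith
    have h5 : (1 : ℝ) ≤ k / (64 * L ^ (2 * C)) := by
      rw [le_div_iff₀ (by positivity)]
      linarith
    have h6 : 2 * ((k : ℝ) / L ^ (2 * C + 3)) ≤ k / (64 * L ^ (2 * C)) := by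
      have h7 : (128 : ℝ) ≤ L ^ 3 := by
        have : (6 : ℝ) ^ 3 ≤ L ^ 3 := pow_le_pow_left₀ (by norm_num) hL 3
        linarith
      rw [pow_add, ← mul_div_assoc, div_le_div_iff₀ (by positivity) (by positivity)]
      have h8 : 128 * (k * L ^ (2 * C)) ≤ L ^ 3 * (k * L ^ (2 * C)) := mul_le_mul_of_nonneg_right h7 (by positivity)
      nlinarith
    have h9 : (k : ℝ) / (32 * L ^ (2 * C)) = k / (64 * L ^ (2 * C)) + k / (64 * L ^ (2 * C)) := by
      field_simp
      ring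
    linarith
  have hlt : 2 * ((k : ℝ) / L ^ (2 * C + 3)) < (((n + k) / (m + 1) : ℕ) : ℝ) - ((n / m : ℕ) : ℝ) := by linarith
  have hle : n / m ≤ (n + k) / (m + 1) := by
    have h3 : (0 : ℝ) < 2 * ((k : ℝ) / L ^ (2 * C + 3)) := by
      have : 0 < L := by linarith
      positivity
    have h4 : ((n / m : ℕ) : ℝ) ≤ (((n + k) / (m + 1) : ℕ) : ℝ) := by linarith
    exact_mod_cast h4
  have hle2 : (n + k) / (m + 1) ≤ k := Nat.div_le_of_le_mul hb
  obtain ⟨p, hp, hp1, hp2⟩ := hP k hk1 (n / m) ((n + k) / (m + 1)) hle hle2 hlt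
  have hq1 : n < m * p := by
    have := (Nat.div_lt_iff_lt_mul (show 0 < m by omega)).mp hp1
    rw [mul_comm]
    exact this
  have hq2 : (m + 1) * p ≤ n + k := by
    have := (Nat.le_div_iff_mul_le (show 0 < m + 1 by omega)).mp hp2
    rw [mul_comm]
    exact this
  obtain ⟨g1, g2⟩ := SML_arith n k m p hm1 ha hb hq1 hq2
  exact ⟨p, hp, g1, g2⟩

end Pool.Agent.DFO
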